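import Pool.Agent.Helper72.AI.Stmts3

set_option autoImplicit false

/-! MP_870acd_co, packet S_ears: area bound for a figure with an inscribed centrally symmetric
hexagon. -/

namespace AffInc.SEars50

open MeasureTheory AffInc

/-- half-open standard triangle -/
def TriO : Set (ℝ × ℝ) := {p : ℝ × ℝ | 0 ≤ p.1 ∧ 0 ≤ p.2 ∧ p.1 + p.2 < 1}

lemma area_TriO : area TriO = 1 / 2 := by
  have hm : MeasurableSet TriO := by
    apply MeasurableSet.inter (measurableSet_le measurable_const measurable_fst)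
    apply MeasurableSet.inter (measurableSet_le measurable_const measurable_snd)
    exact measurableSet_lt (measurable_fst.add measurable_snd) measurable_const
  unfold area
  rw [Measure.volume_eq_prod, Measure.prod_apply hm]
  have h1 : ∀ x : ℝ, volume (Prod.mk x ⁻¹' TriO) =
      (Set.Icc (0:ℝ) 1).indicator (fun x => ENNReal.ofReal (1 - x)) x := by
    intro x
    by_cases hx : x ∈ Set.Icc (0:ℝ) 1
    · rw [Set.indicator_of_mem hx]
      have : Prod.mk x ⁻¹' TriO = Set.Ico (0:ℝ) (1 - x) := by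
        ext y
        simp only [TriO, Set.mem_preimage, Set.mem_ofPred_eq, Set.mem_Ico]
        constructor
        · rintro ⟨_, h2, h3⟩; exact ⟨h2, by linarith⟩
        · rintro ⟨h2, h3⟩; exact ⟨hx.1, h2, by linarith⟩
      rw [this, Real.volume_Ico]; simp
    · rw [Set.indicator_of_notMem hx]
      have : Prod.mk x ⁻¹' TriO = ∅ := by
        ext y
        simp only [TriO, Set.mem_preimage, Set.mem_ofPred_eq, Set.mem_empty_iff_false, iff_false]
        rintro ⟨h1, h2, h3⟩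
        exact hx ⟨h1, by linarith⟩
      rw [this]; simp
  simp_rw [h1]
  rw [lintegral_indicator measurableSet_Icc]
  rw [← ofReal_integral_eq_lintegral_ofReal]
  · rw [ENNReal.toReal_ofReal]
    · rw [integral_Icc_eq_integral_Ioc, ← intervalIntegral.integral_of_le zero_le_one]
      rw [intervalIntegral.integral_sub (by simp) (by simp)]
      simp [integral_id]
      norm_num
    · apply setIntegral_nonneg measurableSet_Icc
      intro x hx; linarith [hx.2]
  · exact (continuous_const.sub continuous_id).integrableOn_Icc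
  · refine (ae_restrict_iff' measurableSet_Icc).2 (Filter.Eventually.of_forall ?_)
    intro x hx; simpa using hx.2

def C0 (r : ℝ) : Set (ℝ × ℝ) := {q | 0 ≤ q.1 ∧ 0 ≤ q.2 ∧ q.1 + q.2 < r}
def C1 (r : ℝ) : Set (ℝ × ℝ) := {q | 1 - r < q.1 ∧ 0 ≤ q.2 ∧ q.1 + q.2 ≤ 1}
def C2 (r : ℝ) : Set (ℝ × ℝ) := {q | 1 - r < q.2 ∧ 0 ≤ q.1 ∧ q.1 + q.2 ≤ 1}

def Hex (r : Fin 3 → ℝ) : Set (ℝ × ℝ) :=
  {q | 0 ≤ q.2 ∧ q.1 ≤ 1 - r 1 ∧ q.1 + q.2 ≤ 1 ∧ q.2 ≤ 1 - r 2 ∧ 0 ≤ q.1 ∧ r 0 ≤ q.1 + q.2}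

lemma meas_C0 (r : ℝ) : MeasurableSet (C0 r) := by
  apply MeasurableSet.inter (measurableSet_le measurable_const measurable_fst)
  apply MeasurableSet.inter (measurableSet_le measurable_const measurable_snd)
  exact measurableSet_lt (measurable_fst.add measurable_snd) measurable_const

lemma meas_C1 (r : ℝ) : MeasurableSet (C1 r) := by
  apply MeasurableSet.inter (measurableSet_lt measurable_const measurable_fst)
  apply MeasurableSet.inter (measurableSet_le measurable_const measurable_snd)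
  exact measurableSet_le (measurable_fst.add measurable_snd) measurable_const

lemma meas_C2 (r : ℝ) : MeasurableSet (C2 r) := by
  apply MeasurableSet.inter (measurableSet_lt measurable_const measurable_snd)
  apply MeasurableSet.inter (measurableSet_le measurable_const measurable_fst)
  exact measurableSet_le (measurable_fst.add measurable_snd) measurable_const

lemma vol_Tri_lt : volume Tri < ⊤ := by
  by_contra h
  have h1 : volume Tri = ⊤ := by simpa using h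
  have h2 := area_Tri
  unfold area at h2
  rw [h1] at h2
  norm_num at h2

lemma area_C_le {C : Set (ℝ × ℝ)} (hC : C ⊆ Tri) (Z : Fin 3 → ℝ × ℝ)
    (h : T Z '' TriO ⊆ C) : |det3 Z| / 2 ≤ area C := by
  have h1 := area_mono h (lt_of_le_of_lt (measure_mono hC) vol_Tri_lt)
  rw [area_T, area_TriO] at h1
  linarith

lemma C0_sub {r : ℝ} (h1 : r ≤ 1) : C0 r ⊆ Tri := by
  rw [Tri_eq]; rintro q ⟨a, b, c⟩; exact ⟨a, b, by linarith⟩

lemma C1_sub {r : ℝ} (h1 : r ≤ 1) : C1 r ⊆ Tri := by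
  rw [Tri_eq]; rintro q ⟨a, b, c⟩; exact ⟨by linarith, b, by linarith⟩

lemma C2_sub {r : ℝ} (h1 : r ≤ 1) : C2 r ⊆ Tri := by
  rw [Tri_eq]; rintro q ⟨a, b, c⟩; exact ⟨b, by linarith, by linarith⟩

lemma area_C0 {r : ℝ} (h0 : 0 < r) (h1 : r ≤ 1) : r ^ 2 / 2 ≤ area (C0 r) := by
  have := area_C_le (C0_sub h1) ![(0, 0), (r, 0), (0, r)] (by
    rintro _ ⟨p, ⟨a, b, c⟩, rfl⟩
    rw [T_def]
    simp only [C0, Set.mem_ofPred_eq, Matrix.cons_val_zero, Matrix.cons_val_one, Matrix.cons_val]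
    refine ⟨by nlinarith, by nlinarith, by nlinarith⟩)
  have h2 : det3 ![((0:ℝ), (0:ℝ)), (r, 0), (0, r)] = r ^ 2 := by
    simp [det3]; ring
  rw [h2, abs_of_nonneg (by positivity)] at this
  exact this

lemma area_C1 {r : ℝ} (h0 : 0 < r) (h1 : r ≤ 1) : r ^ 2 / 2 ≤ area (C1 r) := by
  have := area_C_le (C1_sub h1) ![(1, 0), (1 - r, 0), (1 - r, r)] (by
    rintro _ ⟨p, ⟨a, b, c⟩, rfl⟩
    rw [T_def]
    simp only [C1, Set.mem_ofPred_eq, Matrix.cons_val_zero, Matrix.cons_val_one, Matrix.cons_val]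
    refine ⟨by nlinarith, by nlinarith, by nlinarith⟩)
  have h2 : |det3 ![((1:ℝ), (0:ℝ)), (1 - r, 0), (1 - r, r)]| = r ^ 2 := by
    have : det3 ![((1:ℝ), (0:ℝ)), (1 - r, 0), (1 - r, r)] = -r ^ 2 := by
      simp [det3]; ring
    rw [this, abs_neg, abs_of_nonneg (by positivity)]
  rw [h2] at this
  exact this

lemma area_C2 {r : ℝ} (h0 : 0 < r) (h1 : r ≤ 1) : r ^ 2 / 2 ≤ area (C2 r) := by
  have := area_C_le (C2_sub h1) ![(0, 1), (0, 1 - r), (r, 1 - r)] (by
    rintro _ ⟨p, ⟨a, b, c⟩, rfl⟩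
    rw [T_def]
    simp only [C2, Set.mem_ofPred_eq, Matrix.cons_val_zero, Matrix.cons_val_one, Matrix.cons_val]
    refine ⟨by nlinarith, by nlinarith, by nlinarith⟩)
  have h2 : |det3 ![((0:ℝ), (1:ℝ)), (0, 1 - r), (r, 1 - r)]| = r ^ 2 := by
    have : det3 ![((0:ℝ), (1:ℝ)), (0, 1 - r), (r, 1 - r)] = r ^ 2 := by
      simp [det3]; ring
    rw [this, abs_of_nonneg (by positivity)]
  rw [h2] at this
  exact this

lemma area_union {A B : Set (ℝ × ℝ)} (hd : Disjoint A B) (hB : MeasurableSet B)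
    (hA' : volume A < ⊤) (hB' : volume B < ⊤) : area (A ∪ B) = area A + area B := by
  unfold area
  rw [measure_union hd hB, ENNReal.toReal_add hA'.ne hB'.ne]

lemma area_Hex (r : Fin 3 → ℝ) (hr : ∀ i, 0 < r i) (hs : r 0 + r 1 + r 2 = 1) :
    2 * area (Hex r) ≤ 1 - (r 0 ^ 2 + r 1 ^ 2 + r 2 ^ 2) := by
  have r0 := hr 0
  have r1 := hr 1
  have r2 := hr 2
  have hHex : Hex r ⊆ Tri := by
    rw [Tri_eq]; rintro q ⟨a, b, c, d, e, f⟩; exact ⟨e, a, c⟩
  have s0 := C0_sub (r := r 0) (by linarith)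
  have s1 := C1_sub (r := r 1) (by linarith)
  have s2 := C2_sub (r := r 2) (by linarith)
  have fin : ∀ {A : Set (ℝ × ℝ)}, A ⊆ Tri → volume A < ⊤ := fun h =>
    lt_of_le_of_lt (measure_mono h) vol_Tri_lt
  have d1 : Disjoint (Hex r) (C0 (r 0)) := by
    rw [Set.disjoint_left]
    rintro q ⟨a, b, c, d, e, f⟩ ⟨a', b', c'⟩
    linarith
  have d2 : Disjoint (Hex r ∪ C0 (r 0)) (C1 (r 1)) := by
    rw [Set.disjoint_left]
    rintro q (⟨a, b, c, d, e, f⟩ | ⟨a, b, c⟩) ⟨a', b', c'⟩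
    · linarith
    · linarith
  have d3 : Disjoint (Hex r ∪ C0 (r 0) ∪ C1 (r 1)) (C2 (r 2)) := by
    rw [Set.disjoint_left]
    rintro q ((⟨a, b, c, d, e, f⟩ | ⟨a, b, c⟩) | ⟨a, b, c⟩) ⟨a', b', c'⟩
    · linarith
    · linarith
    · linarith
  have u1 := area_union d1 (meas_C0 _) (fin hHex) (fin s0)
  have t1 : Hex r ∪ C0 (r 0) ⊆ Tri := Set.union_subset hHex s0
  have u2 := area_union d2 (meas_C1 _) (fin t1) (fin s1)
  have t2 : Hex r ∪ C0 (r 0) ∪ C1 (r 1) ⊆ Tri := Set.union_subset t1 s1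
  have u3 := area_union d3 (meas_C2 _) (fin t2) (fin s2)
  have t3 : Hex r ∪ C0 (r 0) ∪ C1 (r 1) ∪ C2 (r 2) ⊆ Tri := Set.union_subset t2 s2
  have m := area_mono t3 vol_Tri_lt
  rw [area_Tri] at m
  have a0 := area_C0 r0 (by linarith)
  have a1 := area_C1 r1 (by linarith)
  have a2 := area_C2 r2 (by linarith)
  linarith

lemma area_union_le {A B : Set (ℝ × ℝ)} (hA' : volume A < ⊤) (hB' : volume B < ⊤) :
    area (A ∪ B) ≤ area A + area B := by
  unfold area
  rw [← ENNReal.toReal_add hA'.ne hB'.ne]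
  exact ENNReal.toReal_mono (ENNReal.add_lt_top.2 ⟨hA', hB'⟩).ne (measure_union_le _ _)

lemma cover6 {G H : Set (ℝ × ℝ)} (E : Fin 6 → Set (ℝ × ℝ)) (hG : volume G < ⊤)
    (hH : volume H < ⊤) (hE : ∀ k, E k ⊆ G) (hcov : ∀ q ∈ G, q ∈ H ∨ ∃ k, q ∈ E k) :
    area G ≤ area H + ∑ k, area (E k) := by
  have hf : ∀ k, volume (E k) < ⊤ := fun k => lt_of_le_of_lt (measure_mono (hE k)) hG
  have hsub : G ⊆ H ∪ ⋃ k, E k := by
    intro q hq
    rcases hcov q hq with h | ⟨k, h⟩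
    · exact Or.inl h
    · exact Or.inr (Set.mem_iUnion.2 ⟨k, h⟩)
  have h1 : volume G ≤ volume H + ∑ k, volume (E k) := by
    refine (measure_mono hsub).trans ((measure_union_le _ _).trans ?_)
    gcongr
    refine (measure_iUnion_le _).trans ?_
    rw [tsum_fintype]
  unfold area
  rw [← ENNReal.toReal_sum (fun k _ => (hf k).ne), ← ENNReal.toReal_add hH.ne]
  · exact ENNReal.toReal_mono (ENNReal.add_lt_top.2
      ⟨hH, ENNReal.sum_lt_top.2 (fun k _ => hf k)⟩).ne h1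
  · exact (ENNReal.sum_lt_top.2 (fun k _ => hf k)).ne

/-- one ear -/
lemma ear (h2 : E_ear) {G : Set (ℝ × ℝ)} (hG : Fig G) (p p' Dm D Dp : ℝ × ℝ) (l y y' : ℝ)
    (hD : D = Dm + Dp) (hp' : p' = p + l • D) (hc : cross Dm Dp = 1) (hl : 0 < l)
    (hy0 : 0 ≤ y) (hy1 : y ≤ 1) (hy0' : 0 ≤ y') (hy1' : y' ≤ 1)
    (hs : ∀ q ∈ G, 0 ≤ cross (y • Dm + (1 - y) • D) (q - p))
    (hs' : ∀ q ∈ G, 0 ≤ cross (y' • D + (1 - y') • Dp) (q - p')) :
    area (G ∩ {q | cross D (q - p) < 0}) ≤ l ^ 2 / 2 * min y (1 - y') := by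
  have := h2 G p Dm Dp l y y' hG (by rw [hc]; norm_num) hl hy0 hy1 hy0' hy1' (by
      intro q hq
      have h := hs q hq
      rw [hD] at h
      simp only [cross, Prod.fst_add, Prod.snd_add, Prod.smul_fst, Prod.smul_snd, Prod.fst_sub,
        Prod.snd_sub, smul_eq_mul] at h ⊢
      nlinarith [h]) (by
      intro q hq
      have h := hs' q hq
      rw [hp', hD] at h
      simp only [cross, Prod.fst_add, Prod.snd_add, Prod.smul_fst, Prod.smul_snd, Prod.fst_sub,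
        Prod.snd_sub, smul_eq_mul] at h ⊢
      nlinarith [h])
  rw [hc, mul_one, ← hD] at this
  exact this

lemma main_S0 (h1 : E_supp) (h2 : E_ear) (h3 : E_lp) (G : Set (ℝ × ℝ)) (r : Fin 3 → ℝ) (c : ℝ)
    (hG : Fig G) (hr : ∀ i, 0 < r i) (hs : ∑ i, r i = 1)
    (hF : ∀ i j, i ≠ j → (1 - r i) • S0 i + r i • S0 j ∈ frontier G)
    (hc : 1 ≤ c) (hc' : ∀ i, 1 + 2 * r i ^ 2 - ∑ j, r j ^ 2 ≤ c) : 2 * area G ≤ c := by
  rw [Fin.sum_univ_three] at hs
  have r0 := hr 0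
  have r1 := hr 1
  have r2 := hr 2
  have v0 : ((r 0, 0) : ℝ × ℝ) ∈ frontier G := by
    have := hF 0 1 (by decide)
    have e : (1 - r 0) • S0 0 + r 0 • S0 1 = (r 0, 0) := by ext <;> simp [S0]
    rwa [e] at this
  have v1 : ((1 - r 1, 0) : ℝ × ℝ) ∈ frontier G := by
    have := hF 1 0 (by decide)
    have e : (1 - r 1) • S0 1 + r 1 • S0 0 = (1 - r 1, 0) := by ext <;> simp [S0]
    rwa [e] at this
  have v2 : ((1 - r 1, r 1) : ℝ × ℝ) ∈ frontier G := by
    have := hF 1 2 (by decide)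
    have e : (1 - r 1) • S0 1 + r 1 • S0 2 = (1 - r 1, r 1) := by ext <;> simp [S0]
    rwa [e] at this
  have v3 : ((r 2, 1 - r 2) : ℝ × ℝ) ∈ frontier G := by
    have := hF 2 1 (by decide)
    have e : (1 - r 2) • S0 2 + r 2 • S0 1 = (r 2, 1 - r 2) := by ext <;> simp [S0]
    rwa [e] at this
  have v4 : ((0, 1 - r 2) : ℝ × ℝ) ∈ frontier G := by
    have := hF 2 0 (by decide)
    have e : (1 - r 2) • S0 2 + r 2 • S0 0 = (0, 1 - r 2) := by ext <;> simp [S0]
    rwa [e] at this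
  have v5 : ((0, r 0) : ℝ × ℝ) ∈ frontier G := by
    have := hF 0 2 (by decide)
    have e : (1 - r 0) • S0 0 + r 0 • S0 2 = (0, r 0) := by ext <;> simp [S0]
    rwa [e] at this
  have hsub : frontier G ⊆ G := hG.cpt.isClosed.frontier_subset
  obtain ⟨y0, y0a, y0b, H0⟩ := h1 G (r 0, 0) (1, -1) (1, 0) (r 0) (r 2) hG v0
    (by norm_num [cross]) r0 r2
    (by
      have e : ((r 0, 0) : ℝ × ℝ) - r 0 • ((1, -1) : ℝ × ℝ) = (0, r 0) := by ext <;> simp
      rw [e]; exact hsub v5)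
    (by
      have e : ((r 0, 0) : ℝ × ℝ) + r 2 • ((1, 0) : ℝ × ℝ) = (1 - r 1, 0) := by
        ext <;> simp; linarith
      rw [e]; exact hsub v1)
  obtain ⟨y1, y1a, y1b, H1⟩ := h1 G (1 - r 1, 0) (1, 0) (0, 1) (r 2) (r 1) hG v1
    (by norm_num [cross]) r2 r1
    (by
      have e : ((1 - r 1, 0) : ℝ × ℝ) - r 2 • ((1, 0) : ℝ × ℝ) = (r 0, 0) := by
        ext <;> simp; linarith
      rw [e]; exact hsub v0)
    (by
      have e : ((1 - r 1, 0) : ℝ × ℝ) + r 1 • ((0, 1) : ℝ × ℝ) = (1 - r 1, r 1) := by ext <;> simp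
      rw [e]; exact hsub v2)
  obtain ⟨y2, y2a, y2b, H2⟩ := h1 G (1 - r 1, r 1) (0, 1) (-1, 1) (r 1) (r 0) hG v2
    (by norm_num [cross]) r1 r0
    (by
      have e : ((1 - r 1, r 1) : ℝ × ℝ) - r 1 • ((0, 1) : ℝ × ℝ) = (1 - r 1, 0) := by
        ext <;> simp
      rw [e]; exact hsub v1)
    (by
      have e : ((1 - r 1, r 1) : ℝ × ℝ) + r 0 • ((-1, 1) : ℝ × ℝ) = (r 2, 1 - r 2) := by
        ext <;> simp <;> linarith
      rw [e]; exact hsub v3)
  obtain ⟨y3, y3a, y3b, H3⟩ := h1 G (r 2, 1 - r 2) (-1, 1) (-1, 0) (r 0) (r 2) hG v3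
    (by norm_num [cross]) r0 r2
    (by
      have e : ((r 2, 1 - r 2) : ℝ × ℝ) - r 0 • ((-1, 1) : ℝ × ℝ) = (1 - r 1, r 1) := by
        ext <;> simp <;> linarith
      rw [e]; exact hsub v2)
    (by
      have e : ((r 2, 1 - r 2) : ℝ × ℝ) + r 2 • ((-1, 0) : ℝ × ℝ) = (0, 1 - r 2) := by
        ext <;> simp
      rw [e]; exact hsub v4)
  obtain ⟨y4, y4a, y4b, H4⟩ := h1 G (0, 1 - r 2) (-1, 0) (0, -1) (r 2) (r 1) hG v4
    (by norm_num [cross]) r2 r1
    (by
      have e : ((0, 1 - r 2) : ℝ × ℝ) - r 2 • ((-1, 0) : ℝ × ℝ) = (r 2, 1 - r 2) := by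
        ext <;> simp
      rw [e]; exact hsub v3)
    (by
      have e : ((0, 1 - r 2) : ℝ × ℝ) + r 1 • ((0, -1) : ℝ × ℝ) = (0, r 0) := by
        ext <;> simp; linarith
      rw [e]; exact hsub v5)
  obtain ⟨y5, y5a, y5b, H5⟩ := h1 G (0, r 0) (0, -1) (1, -1) (r 1) (r 0) hG v5
    (by norm_num [cross]) r1 r0
    (by
      have e : ((0, r 0) : ℝ × ℝ) - r 1 • ((0, -1) : ℝ × ℝ) = (0, 1 - r 2) := by
        ext <;> simp; linarith
      rw [e]; exact hsub v4)
    (by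
      have e : ((0, r 0) : ℝ × ℝ) + r 0 • ((1, -1) : ℝ × ℝ) = (r 0, 0) := by
        ext <;> simp
      rw [e]; exact hsub v0)
  have E0 := ear h2 hG (r 0, 0) (1 - r 1, 0) (1, -1) (1, 0) (0, 1) (r 2) y0 y1
    (by ext <;> simp) (by ext <;> simp; linarith) (by norm_num [cross]) r2 y0a y0b y1a y1b H0 H1
  have E1 := ear h2 hG (1 - r 1, 0) (1 - r 1, r 1) (1, 0) (0, 1) (-1, 1) (r 1) y1 y2
    (by ext <;> simp) (by ext <;> simp) (by norm_num [cross]) r1 y1a y1b y2a y2b H1 H2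
  have E2 := ear h2 hG (1 - r 1, r 1) (r 2, 1 - r 2) (0, 1) (-1, 1) (-1, 0) (r 0) y2 y3
    (by ext <;> simp) (by ext <;> simp <;> linarith) (by norm_num [cross]) r0 y2a y2b y3a y3b H2 H3
  have E3 := ear h2 hG (r 2, 1 - r 2) (0, 1 - r 2) (-1, 1) (-1, 0) (0, -1) (r 2) y3 y4
    (by ext <;> simp) (by ext <;> simp) (by norm_num [cross]) r2 y3a y3b y4a y4b H3 H4
  have E4 := ear h2 hG (0, 1 - r 2) (0, r 0) (-1, 0) (0, -1) (1, -1) (r 1) y4 y5
    (by ext <;> simp) (by ext <;> simp; linarith) (by norm_num [cross]) r1 y4a y4b y5a y5b H4 H5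
  have E5 := ear h2 hG (0, r 0) (r 0, 0) (0, -1) (1, -1) (1, 0) (r 0) y5 y0
    (by ext <;> simp) (by ext <;> simp) (by norm_num [cross]) r0 y5a y5b y0a y0b H5 H0
  have hLP := h3 y0 y1 y2 y3 y4 y5 (r 2 ^ 2) (r 1 ^ 2) (r 0 ^ 2)
    (c - 1 + (r 0 ^ 2 + r 1 ^ 2 + r 2 ^ 2)) y0a y0b y1a y1b y2a y2b y3a y3b y4a y4b y5a y5b
    (by positivity) (by positivity) (by positivity) (by linarith)
    (by have := hc' 2; rw [Fin.sum_univ_three] at this; linarith)
    (by have := hc' 1; rw [Fin.sum_univ_three] at this; linarith)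
    (by have := hc' 0; rw [Fin.sum_univ_three] at this; linarith)
  have hA := area_Hex r hr hs
  have hcov := cover6 (G := G) (H := Hex r)
    ![G ∩ {q | cross (1, 0) (q - (r 0, 0)) < 0}, G ∩ {q | cross (0, 1) (q - (1 - r 1, 0)) < 0},
      G ∩ {q | cross (-1, 1) (q - (1 - r 1, r 1)) < 0},
      G ∩ {q | cross (-1, 0) (q - (r 2, 1 - r 2)) < 0},
      G ∩ {q | cross (0, -1) (q - (0, 1 - r 2)) < 0}, G ∩ {q | cross (1, -1) (q - (0, r 0)) < 0}]
    hG.volume_lt_top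
    (lt_of_le_of_lt (measure_mono (by
      rw [Tri_eq]; rintro q ⟨a, b, c, d, e, f⟩; exact ⟨e, a, c⟩)) vol_Tri_lt)
    (by intro k; fin_cases k <;> exact Set.inter_subset_left)
    (by
      intro q hq
      by_contra hcon
      rw [not_or, not_exists] at hcon
      obtain ⟨hcon1, hcon2⟩ := hcon
      apply hcon1
      have g0 := hcon2 0
      have g1 := hcon2 1
      have g2 := hcon2 2
      have g3 := hcon2 3
      have g4 := hcon2 4
      have g5 := hcon2 5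
      simp only [Matrix.cons_val_zero, Matrix.cons_val_one, Matrix.cons_val, Set.mem_inter_iff, hq,
        true_and, Set.mem_ofPred_eq, not_lt, cross, Prod.fst_sub, Prod.snd_sub] at g0 g1 g2 g3 g4 g5
      refine ⟨by linarith, by linarith, by linarith, by linarith, by linarith, by linarith⟩)
  rw [Fin.sum_univ_six] at hcov
  simp only [Matrix.cons_val_zero, Matrix.cons_val_one, Matrix.cons_val] at hcov
  linarith

theorem pf_S_ears (h1 : AffInc.E_supp) (h2 : AffInc.E_ear) (h3 : AffInc.E_lp) :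
    AffInc.S_ears := by
  intro G r X c hG hr hs hX hF hc hc'
  have hX' : det3 (invT X) ≠ 0 := by
    intro h
    have := det3_invT X hX
    rw [h, mul_zero] at this
    exact zero_ne_one this
  have hTX : ∀ i, T (invT X) (X i) = S0 i := by
    intro i
    have : T X (S0 i) = X i := by
      fin_cases i <;> (rw [T_def]; simp [S0])
    rw [← this]
    exact invT_T X hX _
  have h := main_S0 h1 h2 h3 (T (invT X) '' G) r c (hG.image _ hX') hr hs (by
    intro i j hij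
    have e : (1 - r i) • S0 i + r i • S0 j = T (invT X) ((1 - r i) • X i + r i • X j) := by
      rw [T_comb _ _ _ _ _ (by ring), hTX, hTX]
    rw [e]
    have hfr : frontier (T (invT X) '' G) = T (invT X) '' frontier G :=
      ((Thomeo (invT X) hX').image_frontier G).symm
    rw [hfr]
    exact Set.mem_image_of_mem _ (hF i j hij)) hc hc'
  rw [area_T] at h
  have habs : |det3 X| * |det3 (invT X)| = 1 := by
    rw [← abs_mul, det3_invT X hX, abs_one]
  have hpos : 0 < |det3 X| := abs_pos.2 hX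
  calc 2 * area G = |det3 X| * (2 * (|det3 (invT X)| * area G)) := by
        rw [show |det3 X| * (2 * (|det3 (invT X)| * area G))
          = (|det3 X| * |det3 (invT X)|) * (2 * area G) by ring, habs, one_mul]
    _ ≤ |det3 X| * c := mul_le_mul_of_nonneg_left h hpos.le

end AffInc.SEars50
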